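import Pool.Agent.Helper286.Unst.P4

set_option autoImplicit false

/-!
# Homotopically unstable points of star-shaped sets

There is a star-shaped subset `S` of the Fréchet space `ℝ × ℝ^ℕ`, with centre `a = 0`, such that
for every neighbourhood `V` of `a` in `S` and every metric on `V` which gives its topology the point
`a` is homotopically unstable in `V` although both condition (H) and condition (R) fail for `(V, a)`.
The identity of `V` can be pushed off `a` by homotopies supported in arbitrarily small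
neighbourhoods of `a`.
-/

open Set Topology

namespace Pool.Agent.Results.MP_17e614_gt.StarShaped

/-- The point `a` is homotopically unstable in `M`. -/
def HomotopicallyUnstable (M : Type) [MetricSpace M] (a : M) : Prop :=
  ∀ ε : ℝ, 0 < ε → ∃ h : M × unitInterval → M, Continuous h ∧
    ∀ x : M, h (x, 0) = x ∧ (∀ t, dist x (h (x, t)) < ε) ∧ h (x, 1) ≠ a

/-- Condition (H). -/
def CondH (M : Type) [MetricSpace M] (a : M) : Prop :=
  ∃ f : M × unitInterval → M, Continuous f ∧ (∀ x, f (x, 0) = x) ∧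
    ∀ t : unitInterval, 0 < t → ∀ x, f (x, t) ≠ a

/-- Condition (R). -/
def CondR (M : Type) [MetricSpace M] (a : M) : Prop :=
  ∃ r : M × unitInterval → M × unitInterval, Continuous r ∧ (∀ z, (r z).2 = 0) ∧
    (∀ x, r (x, 0) = (x, 0)) ∧ r ⁻¹' {(a, 0)} = {(a, 0)}

theorem all_metrics {M : Type} (mt : TopologicalSpace M) (a : M)
    (hH : ∀ f : M × unitInterval → M, Continuous f → (∀ x, f (x, 0) = x) →
      (∀ t : unitInterval, 0 < t → ∀ x, f (x, t) ≠ a) → False)
    (hU : ∀ O : Set M, O ∈ 𝓝 a → ∃ h : M × unitInterval → M, Continuous h ∧ (∀ x, h (x, 0) = x) ∧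
      (∀ x t, h (x, t) = x ∨ (x ∈ O ∧ h (x, t) ∈ O)) ∧ ∀ x, h (x, 1) ≠ a)
    (ms : MetricSpace M)
    (hms : ms.toPseudoMetricSpace.toUniformSpace.toTopologicalSpace = mt) :
    HomotopicallyUnstable M a ∧ ¬ CondH M a ∧ ¬ CondR M a := by
  subst hms
  have hnH : ¬ CondH M a := by
    rintro ⟨f, hf, hf0, hfa⟩
    exact hH f hf hf0 hfa
  refine ⟨?_, hnH, ?_⟩
  · intro ε hε
    obtain ⟨h, hc, h0, hO, h1⟩ := hU (Metric.ball a (ε / 2)) (Metric.ball_mem_nhds a (by positivity))
    refine ⟨h, hc, fun x => ⟨h0 x, fun t => ?_, h1 x⟩⟩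
    rcases hO x t with h2 | ⟨h2, h3⟩
    · rw [h2, dist_self]
      exact hε
    · have h4 : dist x a < ε / 2 := h2
      have h5 : dist (h (x, t)) a < ε / 2 := h3
      calc dist x (h (x, t)) ≤ dist x a + dist a (h (x, t)) := dist_triangle _ _ _
        _ = dist x a + dist (h (x, t)) a := by rw [dist_comm a]
        _ < ε := by linarith
  · rintro ⟨r, hr, hr2, hr0, hpre⟩
    apply hnH
    refine ⟨fun z => (r z).1, continuous_fst.comp hr, fun x => ?_, fun t ht x hx => ?_⟩
    · simp only
      rw [hr0 x]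
    · have h1 : (x, t) ∈ r ⁻¹' {(a, 0)} := by
        rw [Set.mem_preimage, Set.mem_singleton_iff]
        exact Prod.ext hx (hr2 (x, t))
      rw [hpre, Set.mem_singleton_iff] at h1
      have h2 : t = 0 := (Prod.ext_iff.1 h1).2
      rw [h2] at ht
      exact lt_irrefl _ ht

/-- A local homotopy off `a` extends to a global one. -/
theorem extend {T W : Type} [TopologicalSpace T] [TopologicalSpace W] (i : W → T)
    (hi : IsEmbedding i) (a : W) (r : T → ℝ) (hr : Continuous r) (hr0 : r (i a) = 0)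
    (hb : ∀ O ∈ 𝓝 (i a), ∃ δ : ℝ, 0 < δ ∧ ∀ x, r x < δ → x ∈ O) (hV : range i ∈ 𝓝 (i a))
    (hH : ∀ f : T × unitInterval → T, Continuous f → (∀ x, f (x, 0) = x) →
      (∀ t : unitInterval, 0 < t → ∀ x, f (x, t) ≠ i a) → False)
    (f : W × unitInterval → W) (hf : Continuous f) (hf0 : ∀ x, f (x, 0) = x)
    (hfa : ∀ t : unitInterval, 0 < t → ∀ x, f (x, t) ≠ a) : False := by
  classical
  obtain ⟨δ0, hδ0, hsub⟩ := hb _ hV
  obtain ⟨δ, hδe⟩ : ∃ δ, δ = δ0 / 2 := ⟨_, rfl⟩
  have hδ : 0 < δ := by rw [hδe]; positivity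
  have hsub' : ∀ x, r x < 2 * δ → x ∈ range i := fun x hx => hsub x (by linarith)
  have : Nonempty W := ⟨a⟩
  set g : T → W := Function.invFun i with hg
  have hgi : ∀ w, g (i w) = w := Function.leftInverse_invFun hi.injective
  have hig : ∀ x ∈ range i, i (g x) = x := by
    rintro _ ⟨w, rfl⟩; rw [hgi]
  have hgc : ContinuousOn g (range i) := by
    rw [hi.isInducing.continuousOn_iff]
    exact continuousOn_id.congr (fun x hx => hig x hx)
  let lam : T → unitInterval := fun x => Set.projIcc 0 1 zero_le_one (1 - r x / δ)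
  have hlc : Continuous lam := continuous_projIcc.comp (continuous_const.sub (hr.div_const δ))
  have hl0 : ∀ x, δ ≤ r x → lam x = 0 := by
    intro x hx
    have : 1 - r x / δ ≤ 0 := by
      have := (one_le_div hδ).2 hx
      linarith
    exact Set.projIcc_of_le_left _ this
  have hl1 : lam (i a) = 1 := by
    have : (1 : ℝ) ≤ 1 - r (i a) / δ := by rw [hr0]; simp
    exact Set.projIcc_of_right_le _ this
  let F : T × unitInterval → T := fun p =>
    if r p.1 < 2 * δ then i (f (g p.1, p.2 * lam p.1)) else p.1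
  refine hH F ?_ ?_ ?_
  · rw [continuous_iff_continuousAt]
    intro p
    by_cases hp : r p.1 < 2 * δ
    · have hopen : IsOpen {q : T × unitInterval | r q.1 < 2 * δ} :=
        isOpen_lt (hr.comp continuous_fst) continuous_const
      have hev : F =ᶠ[𝓝 p] fun q => i (f (g q.1, q.2 * lam q.1)) := by
        filter_upwards [hopen.mem_nhds hp] with q hq
        exact if_pos hq
      refine ContinuousAt.congr ?_ hev.symm
      have hgx : ContinuousAt g p.1 := by
        refine hgc.continuousAt (Filter.mem_of_superset ?_ hsub')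
        exact (isOpen_lt hr continuous_const).mem_nhds hp
      refine hi.continuous.continuousAt.comp (hf.continuousAt.comp ?_)
      exact (hgx.comp continuousAt_fst).prodMk
        (continuous_snd.mul (hlc.comp continuous_fst)).continuousAt
    · have hp' : δ < r p.1 := by
        have := not_lt.1 hp
        linarith
      have hopen : IsOpen {q : T × unitInterval | δ < r q.1} :=
        isOpen_lt continuous_const (hr.comp continuous_fst)
      have hev : F =ᶠ[𝓝 p] Prod.fst := by
        filter_upwards [hopen.mem_nhds hp'] with q hq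
        by_cases h2 : r q.1 < 2 * δ
        · show (if r q.1 < 2 * δ then i (f (g q.1, q.2 * lam q.1)) else q.1) = q.1
          rw [if_pos h2, hl0 q.1 (le_of_lt hq), mul_zero, hf0, hig _ (hsub' _ h2)]
        · exact if_neg h2
      exact ContinuousAt.congr continuousAt_fst hev.symm
  · intro x
    show (if r x < 2 * δ then i (f (g x, 0 * lam x)) else x) = x
    by_cases h2 : r x < 2 * δ
    · rw [if_pos h2, zero_mul, hf0, hig _ (hsub' _ h2)]
    · rw [if_neg h2]
  · intro t ht x hx
    change (if r x < 2 * δ then i (f (g x, t * lam x)) else x) = i a at hx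
    by_cases h2 : r x < 2 * δ
    · rw [if_pos h2] at hx
      have h3 := hi.injective hx
      by_cases h4 : lam x = 0
      · rw [h4, mul_zero, hf0] at h3
        have h5 : x = i a := by rw [← h3, hig _ (hsub' _ h2)]
        rw [h5, hl1] at h4
        exact one_ne_zero h4
      · refine hfa (t * lam x) ?_ (g x) h3
        exact pos_iff_ne_zero.2 (mul_ne_zero ht.ne' h4)
    · rw [if_neg h2] at hx
      rw [hx, hr0] at h2
      exact h2 (by positivity)

/-- Supported homotopies restrict to neighbourhoods. -/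
theorem restrict {T W : Type} [TopologicalSpace T] [TopologicalSpace W] (i : W → T)
    (hi : IsEmbedding i) (a : W) (hV : range i ∈ 𝓝 (i a))
    (hU : ∀ O ∈ 𝓝 (i a), ∃ h : T × unitInterval → T, Continuous h ∧ (∀ x, h (x, 0) = x) ∧
      (∀ x t, h (x, t) = x ∨ (x ∈ O ∧ h (x, t) ∈ O)) ∧ ∀ x, h (x, 1) ≠ i a)
    (O : Set W) (hO : O ∈ 𝓝 a) :
    ∃ h : W × unitInterval → W, Continuous h ∧ (∀ x, h (x, 0) = x) ∧
      (∀ x t, h (x, t) = x ∨ (x ∈ O ∧ h (x, t) ∈ O)) ∧ ∀ x, h (x, 1) ≠ a := by
  have hO' : i '' O ∈ 𝓝 (i a) := by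
    rw [← hi.isInducing.map_nhds_of_mem a hV]
    exact Filter.image_mem_map hO
  obtain ⟨h, hc, h0, hs, h1⟩ := hU _ hO'
  have : Nonempty W := ⟨a⟩
  have hgi : ∀ w, Function.invFun i (i w) = w := Function.leftInverse_invFun hi.injective
  have hr : ∀ w t, h (i w, t) ∈ range i := by
    intro w t
    rcases hs (i w) t with h2 | ⟨-, h3⟩
    · exact ⟨w, h2.symm⟩
    · exact image_subset_range _ _ h3
  have hig : ∀ w t, i (Function.invFun i (h (i w, t))) = h (i w, t) := by
    intro w t
    obtain ⟨v, hv⟩ := hr w t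
    rw [← hv, hgi]
  refine ⟨fun p => Function.invFun i (h (i p.1, p.2)), ?_, ?_, ?_, ?_⟩
  · rw [hi.isInducing.continuous_iff]
    refine Continuous.congr (hc.comp ((hi.continuous.comp continuous_fst).prodMk continuous_snd)) ?_
    intro p
    exact (hig p.1 p.2).symm
  · intro x
    show Function.invFun i (h (i x, 0)) = x
    rw [h0, hgi]
  · intro x t
    show Function.invFun i (h (i x, t)) = x ∨ (x ∈ O ∧ Function.invFun i (h (i x, t)) ∈ O)
    rcases hs (i x) t with h2 | ⟨⟨y, hy, hyx⟩, ⟨z, hz, hzx⟩⟩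
    · left; rw [h2, hgi]
    · right
      refine ⟨by rw [← hi.injective hyx]; exact hy, ?_⟩
      rw [← hzx, hgi]; exact hz
  · intro x hx
    change Function.invFun i (h (i x, 1)) = a at hx
    exact h1 (i x) (by rw [← hig x 1, hx])

open Pool.Agent.Helper286.Unst in
/-- There is a star-shaped subset `S` of `ℝ × ℝ^ℕ` with centre `0` such that for every neighbourhood
`V` of `a = 0` in `S` (in particular for `V = S`) the identity of `V` can be pushed off `a` by
homotopies supported in arbitrarily small neighbourhoods of `a`, and for every metric on `V` which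
gives its topology the point `a` is homotopically unstable although both condition (H) and
condition (R) fail for `(V, a)`. -/
theorem result :
    ∃ S : Set (ℝ × (ℕ → ℝ)), (0 : ℝ × (ℕ → ℝ)) ∈ S ∧ StarConvex ℝ 0 S ∧
      TopologicalSpace.MetrizableSpace S ∧ TopologicalSpace.SeparableSpace S ∧
      ∀ V ⊆ S, V ∈ 𝓝[S] 0 → ∀ a : V, a.1 = 0 →
        (∀ O ∈ 𝓝 a, ∃ h : V × unitInterval → V, Continuous h ∧ (∀ x, h (x, 0) = x) ∧
          (∀ x t, h (x, t) = x ∨ (x ∈ O ∧ h (x, t) ∈ O)) ∧ ∀ x, h (x, 1) ≠ a) ∧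
        ∀ ms : MetricSpace V,
          ms.toPseudoMetricSpace.toUniformSpace.toTopologicalSpace = instTopologicalSpaceSubtype →
          @StarShaped.HomotopicallyUnstable V ms a ∧ ¬ @StarShaped.CondH V ms a ∧
            ¬ @StarShaped.CondR V ms a := by
  obtain ⟨X, hX⟩ := exists_rigid
  obtain ⟨x, hx, -⟩ := hX.dense univ isOpen_univ univ_nonempty 0
  have hne : X.Nonempty := ⟨x, hx.2⟩
  have hv := InN_vertex X hne 2 le_rfl
  have hcast : ((2 : ℕ) : ℝ) = 2 := by norm_num
  rw [hcast] at hv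
  obtain ⟨h1, h2, h3, -⟩ := ell_props X
  have hs : SecondCountableTopology (NN X) :=
    TopologicalSpace.Subtype.secondCountableTopology {w : WW | InN X w}
  have hm : TopologicalSpace.MetrizableSpace (NN X) :=
    TopologicalSpace.metrizableSpace_of_t3_secondCountable _
  have base : NN X := ⟨(0, 0, Pi.single 2 1, (2 : ℝ), 0), hv⟩
  have : Nonempty (NN X) := ⟨base⟩
  obtain ⟨b, hb, hb1⟩ := exists_bounded_embedding (NN X)
  have hcon := fun δ hδ => contract X ⟨(0, 0, Pi.single 2 1, (2 : ℝ), 0), hv⟩ rfl δ hδ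
  have hnn := not_nullhomotopic X hX ⟨(0, 0, Pi.single 2 1, (2 : ℝ), 0), hv⟩ rfl
  have hmem : ((0 : ℝ), (0 : ℕ → ℝ)) ∈ ConeSet b (fun ξ : NN X => ell ξ.1) :=
    ⟨base, 0, le_refl _, (h2 base).le, by rw [zero_smul]⟩
  have hU := fun O hO => cone_top b hb hb1 (fun ξ : NN X => ell ξ.1) h1 h2 h3
    ⟨(0, 0, Pi.single 2 1, (2 : ℝ), 0), hv⟩ hcon ⟨(0, 0), hmem⟩ rfl O hO
  refine ⟨ConeSet b (fun ξ : NN X => ell ξ.1), hmem, ?_, inferInstance, inferInstance, ?_⟩
  · rintro _ ⟨ξ, r, hr0, hr1, rfl⟩ s t hs0 ht0 hst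
    refine ⟨ξ, t * r, mul_nonneg ht0 hr0, ?_, ?_⟩
    · have ht1 : t ≤ 1 := by linarith
      nlinarith
    · rw [smul_zero, zero_add, Prod.smul_mk, smul_smul, smul_eq_mul]
  · rintro V hVS hV ⟨a, haV⟩ ha
    simp only at ha
    subst ha
    set i : V → ConeSet b (fun ξ : NN X => ell ξ.1) := Set.inclusion hVS with hi
    have hie : IsEmbedding i := IsEmbedding.inclusion hVS
    have hia : i ⟨0, haV⟩ = ⟨(0, 0), hmem⟩ := rfl
    have hrange : range i ∈ 𝓝 (i ⟨0, haV⟩) := by
      rw [hi, Set.range_inclusion]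
      exact preimage_coe_mem_nhds_subtype.2 hV
    have hUV := restrict i hie ⟨0, haV⟩ hrange (fun O hO => hU O hO)
    refine ⟨fun O hO => hUV O hO, fun ms hms => all_metrics _ _ ?_ hUV ms hms⟩
    intro f hf hf0 hfa
    refine extend i hie ⟨0, haV⟩ (fun x => x.1.1) (continuous_fst.comp continuous_subtype_val) rfl
      (fun O hO => apex_nhds b hb hb1 (fun ξ : NN X => ell ξ.1) h1 h2 h3 ⟨(0, 0), hmem⟩ rfl O hO)
      hrange ?_ f hf hf0 hfa
    intro f hf hf0 hfa
    exact hnn (cone_H b hb hb1 (fun ξ : NN X => ell ξ.1) h1 h2 h3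
      ⟨(0, 0, Pi.single 2 1, (2 : ℝ), 0), hv⟩ hcon ⟨(0, 0), hmem⟩ rfl f hf hf0 hfa)

end Pool.Agent.Results.MP_17e614_gt.StarShaped
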